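import Pool.Agent.U469.RT.Stm

/-!
# Project RT, package HL: the weak type inequality for the centred maximal function on the integers
-/

set_option autoImplicit false

namespace Pool.Agent.U329.RT.HL

open Pool.Agent.U469.RT Finset Filter Topology

/-- the interval around `k` -/
noncomputable def iv (r : ℤ → ℕ) (k : ℤ) : Finset ℤ := Icc (k - (r k : ℤ)) (k + (r k : ℤ))

theorem cov (F : ℤ → ℝ) (hF : ∀ k, 0 ≤ F k) {lam : ℝ} (hl : 0 < lam) (r : ℤ → ℕ) :
    ∀ (n : ℕ) (E : Finset ℤ), E.card ≤ n →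
      (∀ k ∈ E, lam * (2 * (r k : ℝ) + 1) < ∑ j ∈ iv r k, F j) →
      lam * (E.card : ℝ) ≤ 2 * ∑ j ∈ E.biUnion (iv r), F j := by
  intro n
  induction n with
  | zero =>
    intro E hE _
    have : E = ∅ := Finset.card_eq_zero.1 (by omega)
    subst this
    simp
  | succ n ih =>
    intro E hE h
    rcases E.eq_empty_or_nonempty with rfl | hne
    · simp
    obtain ⟨k0, hk0, hmax⟩ := E.exists_max_image r hne
    have hsplit := Finset.card_filter_add_card_filter_not (s := E)
      (fun k => Disjoint (iv r k) (iv r k0))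
    obtain ⟨E2, hE2⟩ : ∃ E2, E2 = E.filter (fun k => Disjoint (iv r k) (iv r k0)) := ⟨_, rfl⟩
    obtain ⟨E1, hE1⟩ : ∃ E1, E1 = E.filter (fun k => ¬ Disjoint (iv r k) (iv r k0)) := ⟨_, rfl⟩
    rw [← hE1, ← hE2] at hsplit
    -- the intervals which meet the largest one
    have h1 : E1 ⊆ Icc (k0 - 2 * (r k0 : ℤ)) (k0 + 2 * (r k0 : ℤ)) := by
      intro k hk
      rw [hE1, mem_filter, Finset.not_disjoint_iff] at hk
      obtain ⟨hkE, j, hj1, hj2⟩ := hk
      have h2 := hmax k hkE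
      unfold iv at hj1 hj2
      rw [mem_Icc] at hj1 hj2 ⊢
      have h3 : (r k : ℤ) ≤ r k0 := by exact_mod_cast h2
      omega
    have h1c : E1.card ≤ 4 * r k0 + 1 := by
      have h2 := card_le_card h1
      rw [Int.card_Icc] at h2
      omega
    have hk1 : k0 ∈ E1 := by
      rw [hE1, mem_filter]
      refine ⟨hk0, ?_⟩
      rw [Finset.not_disjoint_iff]
      refine ⟨k0, ?_, ?_⟩ <;>
      · unfold iv
        rw [mem_Icc]
        omega
    have h1pos : 0 < E1.card := card_pos.2 ⟨k0, hk1⟩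
    have h2c : E2.card ≤ n := by omega
    have h2sub : E2 ⊆ E := by rw [hE2]; exact filter_subset _ _
    have h3 := ih E2 h2c fun k hk => h k (h2sub hk)
    have h4 := h k0 hk0
    have hdis : Disjoint (E2.biUnion (iv r)) (iv r k0) := by
      rw [Finset.disjoint_biUnion_left]
      intro k hk
      rw [hE2, mem_filter] at hk
      exact hk.2
    have h5 : (∑ j ∈ E2.biUnion (iv r), F j) + ∑ j ∈ iv r k0, F j ≤ ∑ j ∈ E.biUnion (iv r), F j := by
      rw [← sum_union hdis]
      refine sum_le_sum_of_subset_of_nonneg ?_ fun j _ _ => hF j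
      refine union_subset (biUnion_subset_biUnion_of_subset_left _ h2sub) ?_
      exact subset_biUnion_of_mem (iv r) hk0
    have h6 : (E.card : ℝ) = E2.card + E1.card := by exact_mod_cast hsplit.symm
    have h7 : (E1.card : ℝ) ≤ 4 * (r k0 : ℝ) + 1 := by exact_mod_cast h1c
    have h8 : lam * (E1.card : ℝ) ≤ lam * (4 * (r k0 : ℝ) + 1) := mul_le_mul_of_nonneg_left h7 hl.le
    rw [h6]
    nlinarith

theorem t_HL : S_HL := by
  intro F hF hs lam hl
  obtain ⟨S, hS⟩ : ∃ S : Set ℤ, S = {k : ℤ | ∃ r : ℕ, lam * (2 * r + 1) <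
    ∑ j ∈ Icc (k - r) (k + r), F j} := ⟨_, rfl⟩
  rw [← hS]
  have hr : ∀ k : ℤ, ∃ r : ℕ, k ∈ S → lam * (2 * (r : ℝ) + 1) < ∑ j ∈ Icc (k - (r : ℤ)) (k + (r : ℤ)), F j := by
    intro k
    by_cases hk : k ∈ S
    · have hk' := hk
      rw [hS] at hk'
      obtain ⟨r, h⟩ := hk'
      exact ⟨r, fun _ => h⟩
    · exact ⟨0, fun h => absurd h hk⟩
  choose r hr using hr
  have key : ∀ E : Finset ℤ, (E : Set ℤ) ⊆ S → lam * (E.card : ℝ) ≤ 2 * ∑' k, F k := by
    intro E hE
    refine (cov F hF hl r E.card E le_rfl fun k hk => hr k (hE hk)).trans ?_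
    have h1 := hs.sum_le_tsum (E.biUnion (iv r)) fun j _ => hF j
    linarith
  have hfin : S.Finite := by
    by_contra hinf
    have hinf : S.Infinite := hinf
    obtain ⟨N, hN⟩ := exists_nat_gt (2 * (∑' k, F k) / lam)
    obtain ⟨E, hE, hc⟩ := hinf.exists_subset_card_eq N
    have h1 := key E hE
    rw [hc] at h1
    rw [div_lt_iff₀ hl] at hN
    linarith
  refine ⟨hfin, ?_⟩
  have h1 := key hfin.toFinset (by simp)
  rwa [← Set.ncard_eq_toFinset_card S hfin] at h1

end Pool.Agent.U329.RT.HL
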